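import Pool.Agent.J4H6.LA.Lab
import Pool.Agent.J4H66.JP.Up
import Pool.Agent.J4H66.JP.Gam
import Pool.Agent.J4H8.JP.Fin
import Pool.Agent.J4H1.JP.Shp

set_option autoImplicit false

/-!
# Laguerre inequalities of all orders `m ≥ c log (2 + |t|) + B`, `c < 1/2`: then `ζ` has a zero-free half-plane (helper6)
-/

namespace Pool.Agent.J4H6.LA

open Complex Filter Topology Metric
open scoped ComplexConjugate
open Pool.Agent.J4H4.LA
open Pool.Agent.J4H1.JP (Xi Gt S_up S_up2 S_lo)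

noncomputable section

theorem diff_FF (t : ℝ) : Differentiable ℂ (FF t) := by
  unfold FF
  have h := Pool.Agent.J4H1.JP.diff_Xi
  exact (h.comp (by fun_prop)).mul (h.comp (by fun_prop))

theorem FF_conj (t : ℝ) (w : ℂ) : FF t (conj w) = conj (FF t w) := by
  unfold FF
  rw [map_mul, ← Pool.Agent.J4H1.JP.Xi_conj, ← Pool.Agent.J4H1.JP.Xi_conj]
  simp only [map_add, map_mul, map_neg, conj_I, conj_ofReal]
  rw [mul_comm]
  congr 2 <;> ring

theorem iter_conj {f : ℂ → ℂ} (h : ∀ w, f (conj w) = conj (f w)) (m : ℕ) (w : ℂ) :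
    iteratedDeriv m f (conj w) = conj (iteratedDeriv m f w) := by
  induction m generalizing w with
  | zero => simpa using h w
  | succ m ih =>
    rw [iteratedDeriv_succ]
    have e : iteratedDeriv m f = fun z => conj (iteratedDeriv m f (conj z)) := by
      funext z
      rw [ih z, conj_conj]
    have h1 : deriv (iteratedDeriv m f) (conj w) = deriv (fun z => conj (iteratedDeriv m f (conj z))) (conj w) := by
      rw [← e]
    rw [h1, show (fun z => conj (iteratedDeriv m f (conj z))) = conj ∘ (iteratedDeriv m f) ∘ conj from rfl,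
      deriv_conj_conj]
    simp only [Function.comp_apply, conj_conj]

theorem iter_im {f : ℂ → ℂ} (h : ∀ w, f (conj w) = conj (f w)) (m : ℕ) : (iteratedDeriv m f 0).im = 0 := by
  have h1 := iter_conj h m 0
  rw [map_zero] at h1
  exact conj_eq_iff_im.1 h1.symm

theorem Gt_pos {t : ℝ} (ht : 0 < t) : 0 < Gt t := by
  unfold Gt
  have h1 : Gammaℝ (1 / 2 + t * I) ≠ 0 := Gammaℝ_ne_zero_of_re_pos (by simp)
  have := norm_pos_iff.2 h1
  positivity

/-- the norm of the two factors -/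
theorem FF_norm (t : ℝ) (w : ℂ) : ‖FF t w‖ = ‖Xi (w + t * I)‖ * ‖Xi (conj w + t * I)‖ := by
  unfold FF
  rw [norm_mul]
  have e1 : I * (t : ℂ) + w = w + t * I := by ring
  have e2 : ‖Xi (-(I * t) + w)‖ = ‖Xi (conj w + t * I)‖ := by
    have : conj (-(I * t) + w) = conj w + t * I := by
      simp only [map_add, map_mul, map_neg, conj_I, conj_ofReal]
      ring
    rw [← this, Pool.Agent.J4H1.JP.Xi_conj, RCLike.norm_conj]
  rw [e1, e2]

theorem tall (hU : S_up) (hU2 : S_up2) (hL : S_lo) {c : ℝ} (hc : c < 1 / 2) (hH : HL c) :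
    ∃ y0 : ℝ, 0 < y0 ∧ ∃ T : ℝ, ∀ z : ℂ, T ≤ z.im → 1 / 2 - y0 ≤ z.re → z.re ≤ 1 / 2 → Xi z ≠ 0 := by
  obtain ⟨B, hH⟩ := hH
  set c' : ℝ := max c 0 with hc'
  have hc'0 : 0 ≤ c' := le_max_right _ _
  have hc'1 : c' < 1 / 2 := max_lt hc (by norm_num)
  set a : ℝ := (c' + 1 / 2) / 2 with ha
  have ha1 : a < 1 / 2 := by linarith
  have ha0 : 0 ≤ a := by linarith
  have hac : 0 < a - c' := by linarith
  obtain ⟨τ, s1, hτ, hs1, hA⟩ := t_lab a ha0 ha1
  obtain ⟨s0, hs0, hU2⟩ := hU2 τ hτ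
  set s : ℝ := min s1 s0 with hs
  have hsp : 0 < s := lt_min hs1 hs0
  obtain ⟨y, δ, L, hy, hδ, hA⟩ := hA s hsp (min_le_left _ _)
  obtain ⟨T1, hU⟩ := hU 8 δ (by norm_num) hδ
  obtain ⟨T2, hU2⟩ := hU2 s hsp (min_le_right _ _) 8 δ (by norm_num) hδ
  obtain ⟨T3, hL⟩ := hL 8 δ (by norm_num) hδ
  have hlog : Tendsto Real.log atTop atTop := Real.tendsto_log_atTop
  have hev : ∀ᶠ t : ℝ in atTop, T1 ≤ t ∧ T2 ≤ t ∧ T3 ≤ t ∧ 2 ≤ t ∧ L ≤ Real.log t ∧
      (c' + |B|) / (a - c') ≤ Real.log t := by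
    filter_upwards [eventually_ge_atTop T1, eventually_ge_atTop T2, eventually_ge_atTop T3,
      eventually_ge_atTop 2, hlog.eventually_ge_atTop L, hlog.eventually_ge_atTop ((c' + |B|) / (a - c'))]
      with t h1 h2 h3 h4 h5 h6
    exact ⟨h1, h2, h3, h4, h5, h6⟩
  obtain ⟨T, hT⟩ := eventually_atTop.1 hev
  refine ⟨y, hy, T, fun z hzT hz1 hz2 hz0 => ?_⟩
  obtain ⟨g1, g2, g3, g4, g5, g6⟩ := hT z.im hzT
  set t : ℝ := z.im with ht
  have ht0 : 0 < t := by linarith
  set l : ℝ := Real.log t with hl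
  have hG := Gt_pos ht0
  have hGC : (Gt t : ℂ) ≠ 0 := by exact_mod_cast hG.ne'
  have hcond : ∀ m : ℕ, a * l ≤ m → c * Real.log (2 + |t|) + B ≤ m := by
    intro m hm
    have h1 : Real.log (2 + |t|) ≤ 1 + l := by
      have h2 : 2 + |t| ≤ 2 * t := by rw [abs_of_pos ht0]; linarith
      have h3 : Real.log (2 + |t|) ≤ Real.log (2 * t) := Real.log_le_log (by positivity) h2
      rw [Real.log_mul (by norm_num) ht0.ne'] at h3
      have h4 := Real.log_two_lt_d9
      linarith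
    have h0 : 0 ≤ Real.log (2 + |t|) := Real.log_nonneg (by have := abs_nonneg t; linarith)
    have h5 : c * Real.log (2 + |t|) ≤ c' * (1 + l) := by
      calc c * Real.log (2 + |t|) ≤ c' * Real.log (2 + |t|) := by
            apply mul_le_mul_of_nonneg_right (le_max_left _ _) h0
        _ ≤ _ := mul_le_mul_of_nonneg_left h1 hc'0
    rw [div_le_iff₀ hac] at g6
    have h6 := le_abs_self B
    nlinarith
  -- the function
  set f : ℂ → ℂ := fun w => ((Gt t : ℂ) ^ 2)⁻¹ * FF t w with hf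
  have hfd : Differentiable ℂ f := (diff_FF t).const_mul _
  have hiter : ∀ m : ℕ, iteratedDeriv m f 0 = ((Gt t : ℂ) ^ 2)⁻¹ * iteratedDeriv m (FF t) 0 := by
    intro m
    rw [hf, iteratedDeriv_const_mul_field]
  have hreal : ((Gt t : ℂ) ^ 2)⁻¹ = (((Gt t ^ 2)⁻¹ : ℝ) : ℂ) := by push_cast; ring
  have him : ∀ m : ℕ, (iteratedDeriv m f 0).im = 0 := by
    intro m
    rw [hiter, hreal, im_ofReal_mul, iter_im (FF_conj t), mul_zero]
  have hpos : ∀ m : ℕ, a * l ≤ m → 0 ≤ (iteratedDeriv m f 0).re := by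
    intro m hm
    rw [hiter, hreal, re_ofReal_mul]
    have h1 := hH t m (hcond m hm)
    unfold Lg at h1
    positivity
  have hfn : ∀ w : ℂ, ‖f w‖ = ‖Xi (w + t * I)‖ * ‖Xi (conj w + t * I)‖ / Gt t ^ 2 := by
    intro w
    rw [hf]
    simp only
    rw [norm_mul, norm_inv, norm_pow, norm_real, Real.norm_of_nonneg hG.le, FF_norm]
    ring
  have hup : ∀ (w : ℂ) (A : ℝ), ‖Xi (w + t * I)‖ ≤ Gt t * Real.exp (l / 2 * A) →
      ‖Xi (conj w + t * I)‖ ≤ Gt t * Real.exp (l / 2 * A) → ‖f w‖ ≤ Real.exp (l * A) := by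
    intro w A h1 h2
    rw [hfn, div_le_iff₀ (by positivity)]
    have e : Real.exp (l * A) = Real.exp (l / 2 * A) * Real.exp (l / 2 * A) := by
      rw [← Real.exp_add]; congr 1; ring
    calc ‖Xi (w + t * I)‖ * ‖Xi (conj w + t * I)‖ ≤
          (Gt t * Real.exp (l / 2 * A)) * (Gt t * Real.exp (l / 2 * A)) :=
          mul_le_mul h1 h2 (norm_nonneg _) (by positivity)
      _ = _ := by rw [e]; ring
  have hn1 : ∀ w : ℂ, ‖w‖ ≤ 8 → ‖w + t * I - t * I‖ ≤ 8 := fun w hw => by rwa [add_sub_cancel_right]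
  have hn2 : ∀ w : ℂ, ‖w‖ ≤ 8 → ‖conj w + t * I - t * I‖ ≤ 8 := fun w hw => by
    rwa [add_sub_cancel_right, RCLike.norm_conj]
  have hr1 : ∀ w : ℂ, (w + t * I).re = w.re := fun w => by simp
  have hr2 : ∀ w : ℂ, (conj w + t * I).re = w.re := fun w => by simp
  have key := hA l g5 f hfd him hpos
    (by
      intro w hw
      have h1 := hU t g1 _ (hn1 w hw)
      have h2 := hU t g1 _ (hn2 w hw)
      rw [hr1] at h1
      rw [hr2] at h2
      exact hup w _ h1 h2)
    (by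
      intro w hw hwr
      have h1 := hU2 t g2 _ (hn1 w hw) (by rwa [hr1])
      have h2 := hU2 t g2 _ (hn2 w hw) (by rwa [hr2])
      exact hup w _ h1 h2)
    (by
      intro w hw hwr
      have h1 := hL t g3 _ (hn1 w hw) (by rwa [hr1])
      have h2 := hL t g3 _ (hn2 w hw) (by rwa [hr2])
      rw [hr1] at h1
      rw [hr2] at h2
      rw [hfn, le_div_iff₀ (by positivity)]
      have e : Real.exp (l * (w.re - δ)) = Real.exp (l / 2 * (w.re - δ)) * Real.exp (l / 2 * (w.re - δ)) := by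
        rw [← Real.exp_add]; congr 1; ring
      calc Real.exp (l * (w.re - δ)) * Gt t ^ 2 =
            (Gt t * Real.exp (l / 2 * (w.re - δ))) * (Gt t * Real.exp (l / 2 * (w.re - δ))) := by
            rw [e]; ring
        _ ≤ _ := mul_le_mul h1 h2 (by positivity) (norm_nonneg _))
    z.re hz1 hz2
  apply key
  rw [hf]
  simp only
  unfold FF
  have e1 : I * (t : ℂ) + (z.re : ℂ) = z := by
    rw [ht]
    apply Complex.ext <;> simp
  rw [e1, hz0, zero_mul, mul_zero]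

/-- if the Laguerre inequalities of all orders `m ≥ c log (2 + |t|) + B` hold for some `c < 1/2`, then `ζ` has a zero-free
half-plane `Re s > 1 - δ` -/
theorem t_cnv : S_cnv := by
  intro c hc hH
  obtain ⟨y0, hy0, T, hT⟩ := tall Pool.Agent.J4H66.JP.t_up Pool.Agent.J4H66.JP.t_up2 Pool.Agent.J4H66.JP.t_lo hc hH
  exact Pool.Agent.J4H8.JP.fin_of_tall hy0 hT

end

end Pool.Agent.J4H6.LA
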