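import Pool.Agent.J4H4.LA.Stm

set_option autoImplicit false

/-!
# Laguerre inequalities of all orders: the abstract lemma of the converse (helper6)

If the Taylor coefficients of order `≥ a l` of `f` are nonnegative, `a < 1/2`, and `f` has the size of the xi function at height
`e^l`, then `f` has no zeros on a fixed interval with right end `1/2`.
-/

namespace Pool.Agent.J4H6.LA

open Complex Filter Topology Metric
open scoped ComplexConjugate
open Pool.Agent.J4H4.LA

noncomputable section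

/-- the Taylor coefficients (real parts) -/
def cf (f : ℂ → ℂ) (m : ℕ) : ℝ := (iteratedDeriv m f 0).re / m.factorial

theorem hasSum_cf {f : ℂ → ℂ} (hf : Differentiable ℂ f) (him : ∀ m : ℕ, (iteratedDeriv m f 0).im = 0) (x : ℝ) :
    HasSum (fun m : ℕ => cf f m * x ^ m) (f x).re ∧ (f x).im = 0 := by
  have h := Complex.hasSum_taylorSeries_of_entire hf 0 (x : ℂ)
  have e : (fun n : ℕ => ((n.factorial : ℂ))⁻¹ • ((x : ℂ) - 0) ^ n • iteratedDeriv n f 0) =
      fun n : ℕ => ((cf f n * x ^ n : ℝ) : ℂ) := by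
    funext n
    have h1 : iteratedDeriv n f 0 = ((iteratedDeriv n f 0).re : ℂ) := by
      apply Complex.ext
      · simp
      · simp [him n]
    rw [sub_zero, smul_eq_mul, smul_eq_mul, h1]
    unfold cf
    push_cast
    rw [← h1]
    ring
  rw [e] at h
  constructor
  · have h2 := Complex.hasSum_re h
    simpa only [Complex.ofReal_re] using h2
  · have h2 := Complex.hasSum_im h
    have h3 : HasSum (fun _ : ℕ => (0 : ℝ)) (f x).im := by simpa only [Complex.ofReal_im] using h2
    exact h3.unique hasSum_zero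

theorem norm_of_im_zero {w : ℂ} (h : w.im = 0) : ‖w‖ = |w.re| := by
  have e : w = ((w.re : ℝ) : ℂ) := by
    apply Complex.ext
    · rw [Complex.ofReal_re]
    · rw [Complex.ofReal_im, h]
  conv_lhs => rw [e]
  rw [Complex.norm_real, Real.norm_eq_abs]

/-- Cauchy's estimate -/
theorem cf_le {f : ℂ → ℂ} (hf : Differentiable ℂ f) {ρ M : ℝ} (hρ : 0 < ρ) (hM : ∀ w : ℂ, ‖w‖ = ρ → ‖f w‖ ≤ M) (m : ℕ) :
    |cf f m| ≤ M / ρ ^ m := by
  have h := Complex.norm_iteratedDeriv_le_of_forall_mem_sphere_norm_le (c := 0) m hρ hf.diffContOnCl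
    (C := M) (fun z hz => hM z (by simpa using hz))
  have hm : (0 : ℝ) < m.factorial := by exact_mod_cast m.factorial_pos
  unfold cf
  rw [abs_div, abs_of_pos hm, div_le_iff₀ hm]
  refine (Complex.abs_re_le_norm _).trans (h.trans (le_of_eq ?_))
  ring

/-- the low part -/
theorem low_le {f : ℂ → ℂ} (hf : Differentiable ℂ f) {ρ M X A x : ℝ} (hρ : 0 < ρ) (hρX : ρ ≤ X)
    (hM0 : 0 ≤ M) (hM : ∀ w : ℂ, ‖w‖ = ρ → ‖f w‖ ≤ M) (m0 : ℕ) (hm0 : ∀ m : ℕ, m < m0 → (m : ℝ) ≤ A)
    (hx0 : 0 ≤ x) (hxX : x ≤ X) :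
    |∑ m ∈ Finset.range m0, cf f m * x ^ m| ≤ m0 * (M * Real.exp (A * (X / ρ - 1))) := by
  calc |∑ m ∈ Finset.range m0, cf f m * x ^ m| ≤ ∑ m ∈ Finset.range m0, |cf f m * x ^ m| :=
        Finset.abs_sum_le_sum_abs _ _
    _ ≤ ∑ m ∈ Finset.range m0, M * Real.exp (A * (X / ρ - 1)) := by
        apply Finset.sum_le_sum
        intro m hm
        have hmA := hm0 m (Finset.mem_range.1 hm)
        have h1 := cf_le hf hρ hM m
        have h2 : x ^ m ≤ X ^ m := pow_le_pow_left₀ hx0 hxX m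
        have hXρ : 1 ≤ X / ρ := by rwa [le_div_iff₀ hρ, one_mul]
        rw [abs_mul, abs_of_nonneg (pow_nonneg hx0 m)]
        have h3 : (X / ρ) ^ m ≤ Real.exp (A * (X / ρ - 1)) := by
          have h4 : X / ρ ≤ Real.exp (X / ρ - 1) := by
            have := Real.add_one_le_exp (X / ρ - 1)
            linarith
          calc (X / ρ) ^ m ≤ (Real.exp (X / ρ - 1)) ^ m := pow_le_pow_left₀ (by positivity) h4 m
            _ = Real.exp (m * (X / ρ - 1)) := by rw [← Real.exp_nat_mul]
            _ ≤ _ := by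
                apply Real.exp_le_exp.2
                apply mul_le_mul_of_nonneg_right hmA
                linarith
        calc |cf f m| * x ^ m ≤ (M / ρ ^ m) * X ^ m := by
              apply mul_le_mul h1 h2 (by positivity) (by positivity)
          _ = M * (X / ρ) ^ m := by rw [div_pow]; ring
          _ ≤ _ := by gcongr
    _ = _ := by rw [Finset.sum_const, Finset.card_range, nsmul_eq_mul]

theorem t_lab : S_lab := by
  intro a ha0 ha
  set κ : ℝ := 1 - 2 * a with hκ
  have hκ0 : 0 < κ := by linarith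
  have hκ1 : κ ≤ 1 := by linarith
  refine ⟨κ / 4, κ / 16, by positivity, by positivity, fun s hs hs1 => ?_⟩
  set δ : ℝ := s * κ / 104 with hδ
  set q : ℝ := s * κ / 8 with hq
  have hs16 : s ≤ 1 / 16 := by linarith
  have hsκ : 0 < s * κ := by positivity
  have hsκ1 : s * κ ≤ 1 / 16 := by nlinarith
  have hδ0 : 0 < δ := by positivity
  have hδ1 : δ ≤ 1 / 20 := by rw [hδ]; linarith
  have hq0 : 0 < q := by positivity
  have hδq : 13 * δ = q := by rw [hδ, hq]; ring
  refine ⟨δ, δ, 18 / q ^ 2, hδ0, hδ0, fun l hl f hf him hpos h1 h2 h3 x hx1 hx2 => ?_⟩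
  have hlq : 18 ≤ l * q ^ 2 := by
    rwa [div_le_iff₀ (by positivity)] at hl
  have hl0 : 0 < l := by
    by_contra hn
    have : l * q ^ 2 ≤ 0 := mul_nonpos_of_nonpos_of_nonneg (not_lt.1 hn) (by positivity)
    linarith
  have hq1 : q ^ 2 ≤ 1 := by
    have : q ≤ 1 := by rw [hq]; linarith
    nlinarith
  have hl18 : 18 ≤ l := by nlinarith
  -- the exponential
  have hexp : 8 + (l + 1) ≤ Real.exp (l * q) := by
    have h4 := Real.quadratic_le_exp_of_nonneg (x := l * q) (by positivity)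
    have h5 : (l * q) ^ 2 = l * (l * q ^ 2) := by ring
    rw [h5] at h4
    have h6 : l * 18 ≤ l * (l * q ^ 2) := mul_le_mul_of_nonneg_left hlq hl0.le
    have h7 : 0 ≤ l * q := by positivity
    nlinarith
  set ρ : ℝ := 1 / 2 - s with hρ
  have hρ0 : 0 < ρ := by linarith
  set X : ℝ := 1 / 2 + 6 * δ with hX
  set M : ℝ := Real.exp (l * (1 / 2 - (1 - κ / 4) * s + δ)) with hM
  set m0 : ℕ := ⌈a * l⌉₊ with hm0
  have hal : 0 ≤ a * l := by positivity
  have hm0a : ∀ m : ℕ, m < m0 → (m : ℝ) ≤ a * l := fun m hm => (Nat.lt_ceil.1 hm).le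
  have hm0b : (m0 : ℝ) ≤ l + 1 := by
    have := (Nat.ceil_lt_add_one hal).le
    nlinarith
  have hm0c : ∀ m : ℕ, m0 ≤ m → a * l ≤ m := fun m hm => (Nat.le_ceil _).trans (by exact_mod_cast hm)
  have hMb : ∀ w : ℂ, ‖w‖ = ρ → ‖f w‖ ≤ M := by
    intro w hw
    have := h2 w (by rw [hw]; linarith) ((Complex.abs_re_le_norm w).trans (by rw [hw]))
    exact this
  -- the bound of the low part
  have hlow : ∀ z : ℝ, 0 ≤ z → z ≤ X → |∑ m ∈ Finset.range m0, cf f m * z ^ m| ≤ Real.exp (l * (1 / 2 - 2 * q)) := by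
    intro z hz0 hzX
    refine (low_le hf hρ0 (by rw [hρ, hX]; linarith) (Real.exp_pos _).le hMb m0 hm0a hz0 hzX).trans ?_
    have e1 : X / ρ - 1 ≤ 24 * δ + 2 * s + 8 * s ^ 2 := by
      rw [sub_le_iff_le_add, div_le_iff₀ hρ0, hX, hρ]
      nlinarith [mul_pos hδ0 hs, mul_pos hs hs, mul_pos (mul_pos hs hs) hs, mul_pos hδ0 (mul_pos hs hs)]
    have e2 : a * (24 * δ + 2 * s + 8 * s ^ 2) ≤ 12 * δ + 2 * a * s + 4 * s ^ 2 := by
      nlinarith [mul_pos hs hs]
    have e3 : 4 * s ^ 2 ≤ s * κ / 4 := by nlinarith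
    have e4 : (1 / 2 - (1 - κ / 4) * s + δ) + a * (X / ρ - 1) ≤ 1 / 2 - 3 * q := by
      have e5 : a * (X / ρ - 1) ≤ a * (24 * δ + 2 * s + 8 * s ^ 2) := mul_le_mul_of_nonneg_left e1 ha0
      have e6 : a = (1 - κ) / 2 := by rw [hκ]; ring
      have e7 : 2 * a * s = s - κ * s := by rw [e6]; ring
      have e8 : q = s * κ / 8 := hq
      nlinarith
    calc (m0 : ℝ) * (M * Real.exp (a * l * (X / ρ - 1)))
        = m0 * Real.exp (l * ((1 / 2 - (1 - κ / 4) * s + δ) + a * (X / ρ - 1))) := by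
          rw [hM, ← Real.exp_add]
          congr 2
          ring
      _ ≤ Real.exp (l * q) * Real.exp (l * (1 / 2 - 3 * q)) := by
          apply mul_le_mul _ _ (Real.exp_pos _).le (Real.exp_pos _).le
          · linarith
          · apply Real.exp_le_exp.2
            exact mul_le_mul_of_nonneg_left e4 hl0.le
      _ = _ := by
          rw [← Real.exp_add]
          congr 1
          ring
  -- the high part
  set P : ℝ → ℝ := fun z => ∑' m : ℕ, cf f (m + m0) * z ^ (m + m0) with hP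
  have hsum : ∀ z : ℝ, Summable (fun m : ℕ => cf f (m + m0) * z ^ (m + m0)) := fun z =>
    (summable_nat_add_iff (f := fun m : ℕ => cf f m * z ^ m) m0).2 (hasSum_cf hf him z).1.summable
  have hsplit : ∀ z : ℝ, (f z).re = (∑ m ∈ Finset.range m0, cf f m * z ^ m) + P z := by
    intro z
    have h4 := (hasSum_cf hf him z).1
    rw [← h4.tsum_eq, ← h4.summable.sum_add_tsum_nat_add m0]
  have hcf : ∀ m : ℕ, 0 ≤ cf f (m + m0) := by
    intro m
    unfold cf
    apply div_nonneg (hpos _ (hm0c _ (Nat.le_add_left _ _))) (Nat.cast_nonneg _)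
  set a1 : ℝ := 1 / 2 + 2 * δ with ha1
  have hx0 : 0 < x := by linarith
  set a2 : ℝ := a1 ^ 2 / x with ha2
  have ha1p : 0 < a1 := by linarith
  have ha2x : x * a2 = a1 ^ 2 := by rw [ha2]; field_simp
  have ha2p : 0 < a2 := by positivity
  have ha2X : a2 ≤ X := by
    rw [ha2, div_le_iff₀ hx0]
    have h4 : X * (1 / 2 - δ) ≤ X * x := mul_le_mul_of_nonneg_left hx1 (by rw [hX]; linarith)
    have h5 : a1 ^ 2 ≤ X * (1 / 2 - δ) := by
      rw [ha1, hX]
      nlinarith
    linarith
  have ha2l : 1 / 2 ≤ a2 := by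
    rw [ha2, le_div_iff₀ hx0]
    nlinarith
  have hXx : X ≤ 1 := by rw [hX]; linarith
  -- size of P at a1
  have hPa1 : Real.exp (l * (1 / 2)) / 2 ≤ P a1 := by
    have h4 := h3 (a1 : ℂ) (by rw [Complex.norm_real, Real.norm_of_nonneg ha1p.le]; linarith)
      (by rw [Complex.ofReal_re]; linarith)
    rw [Complex.ofReal_re] at h4
    have h5 := hlow a1 ha1p.le (by rw [ha1, hX]; linarith)
    have h6 : ‖f (a1 : ℂ)‖ = |(f (a1 : ℂ)).re| := norm_of_im_zero (hasSum_cf hf him a1).2
    rw [h6, hsplit a1] at h4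
    have h7 : 0 ≤ P a1 := tsum_nonneg fun m => mul_nonneg (hcf m) (by positivity)
    have h8 := abs_add_le (∑ m ∈ Finset.range m0, cf f m * a1 ^ m) (P a1)
    rw [abs_of_nonneg h7] at h8
    have h9 : Real.exp (l * (1 / 2)) ≤ Real.exp (l * (a1 - δ)) := by
      apply Real.exp_le_exp.2
      apply mul_le_mul_of_nonneg_left _ hl0.le
      rw [ha1]; linarith
    have h10 : Real.exp (l * (1 / 2 - 2 * q)) ≤ Real.exp (l * (1 / 2)) / 2 := by
      rw [le_div_iff₀ (by norm_num)]
      have h11 : Real.exp (l * (1 / 2)) = Real.exp (l * (1 / 2 - 2 * q)) * (Real.exp (l * q) * Real.exp (l * q)) := by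
        rw [← Real.exp_add, ← Real.exp_add]
        congr 1
        ring
      rw [h11]
      have h12 := Real.exp_pos (l * (1 / 2 - 2 * q))
      apply mul_le_mul_of_nonneg_left _ h12.le
      nlinarith
    linarith
  -- size of P at a2
  have hPa2 : P a2 ≤ 2 * Real.exp (l * (a2 + δ)) := by
    have h4 := h1 (a2 : ℂ) (by rw [Complex.norm_real, Real.norm_of_nonneg ha2p.le]; linarith)
    rw [Complex.ofReal_re, abs_of_pos ha2p, max_eq_left ha2l] at h4
    have h5 := hlow a2 ha2p.le ha2X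
    have h6 := (Complex.abs_re_le_norm (f (a2 : ℂ))).trans h4
    rw [hsplit a2] at h6
    have h7 := le_abs_self ((∑ m ∈ Finset.range m0, cf f m * a2 ^ m) + P a2)
    have h8 := neg_abs_le (∑ m ∈ Finset.range m0, cf f m * a2 ^ m)
    have h9 : Real.exp (l * (1 / 2 - 2 * q)) ≤ Real.exp (l * (a2 + δ)) := by
      apply Real.exp_le_exp.2
      apply mul_le_mul_of_nonneg_left _ hl0.le
      linarith
    linarith
  -- Cauchy-Schwarz
  set Aa : ℝ := Real.exp (l * (1 / 2)) / 2 with hAa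
  set Bb : ℝ := 2 * Real.exp (l * (a2 + δ)) with hBb
  have hAp : 0 < Aa := by positivity
  have hBp : 0 < Bb := by positivity
  set lam : ℝ := Bb / Aa with hlam
  have hlp : 0 < lam := by positivity
  have hCS : 2 * P a1 ≤ lam * P x + P a2 / lam := by
    have e1 : ∀ m : ℕ, 2 * (cf f (m + m0) * a1 ^ (m + m0)) ≤
        lam * (cf f (m + m0) * x ^ (m + m0)) + (cf f (m + m0) * a2 ^ (m + m0)) / lam := by
      intro m
      have h4 : x ^ (m + m0) * a2 ^ (m + m0) = (a1 ^ (m + m0)) ^ 2 := by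
        rw [← mul_pow, ha2x, ← pow_mul, ← pow_mul]
        congr 1
        ring
      have h5 : 0 < x ^ (m + m0) := by positivity
      have h6 : 0 < a2 ^ (m + m0) := by positivity
      have h7 : 0 < a1 ^ (m + m0) := by positivity
      have h8 : 2 * a1 ^ (m + m0) ≤ lam * x ^ (m + m0) + a2 ^ (m + m0) / lam := by
        have h9 : (2 * a1 ^ (m + m0)) ^ 2 ≤ (lam * x ^ (m + m0) + a2 ^ (m + m0) / lam) ^ 2 := by
          have h10 : (lam * x ^ (m + m0)) * (a2 ^ (m + m0) / lam) = (a1 ^ (m + m0)) ^ 2 := by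
            rw [← h4]; field_simp
          nlinarith [sq_nonneg (lam * x ^ (m + m0) - a2 ^ (m + m0) / lam)]
        exact (pow_le_pow_iff_left₀ (by positivity) (by positivity) two_ne_zero).1 h9
      calc 2 * (cf f (m + m0) * a1 ^ (m + m0)) = cf f (m + m0) * (2 * a1 ^ (m + m0)) := by ring
        _ ≤ cf f (m + m0) * (lam * x ^ (m + m0) + a2 ^ (m + m0) / lam) :=
            mul_le_mul_of_nonneg_left h8 (hcf m)
        _ = _ := by ring
    have e2 := Summable.tsum_le_tsum e1 ((hsum a1).mul_left 2)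
      (((hsum x).mul_left lam).add ((hsum a2).div_const lam))
    rw [tsum_mul_left, Summable.tsum_add ((hsum x).mul_left lam) ((hsum a2).div_const lam), tsum_mul_left,
      tsum_div_const] at e2
    exact e2
  have hPx : Aa ^ 2 / Bb ≤ P x := by
    have h4 : P a2 / lam ≤ Aa := by
      rw [div_le_iff₀ hlp, hlam]
      have : Aa * (Bb / Aa) = Bb := by field_simp
      rw [this]
      exact hPa2
    have h5 : Aa ≤ lam * P x := by linarith
    have h6 : Aa ^ 2 / Bb = Aa / lam := by rw [hlam]; field_simp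
    rw [h6, div_le_iff₀ hlp]
    linarith
  -- the end
  have hfin : Real.exp (l * (1 / 2 - 2 * q)) < Aa ^ 2 / Bb := by
    rw [lt_div_iff₀ hBp, hAa, hBb]
    have h4 : Real.exp (l * (1 / 2 - 2 * q)) * (2 * Real.exp (l * (a2 + δ))) =
        2 * Real.exp (l * (1 / 2 - 2 * q + a2 + δ)) := by
      have : l * (1 / 2 - 2 * q + a2 + δ) = l * (1 / 2 - 2 * q) + l * (a2 + δ) := by ring
      rw [this, Real.exp_add]; ring
    have h5 : (Real.exp (l * (1 / 2)) / 2) ^ 2 = Real.exp (l * 1) / 4 := by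
      rw [div_pow, ← Real.exp_nat_mul]
      norm_num
      ring_nf
    rw [h4, h5]
    have h6 : Real.exp (l * 1) = Real.exp (l * (1 - q)) * Real.exp (l * q) := by
      rw [← Real.exp_add]; congr 1; ring
    have h7 : Real.exp (l * (1 / 2 - 2 * q + a2 + δ)) ≤ Real.exp (l * (1 - q)) := by
      apply Real.exp_le_exp.2
      apply mul_le_mul_of_nonneg_left _ hl0.le
      rw [hX] at ha2X
      linarith
    rw [h6]
    have h8 := Real.exp_pos (l * (1 - q))
    nlinarith
  intro h0
  have h4 := hsplit x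
  rw [h0, Complex.zero_re] at h4
  have h5 := hlow x hx0.le (by rw [hX]; linarith)
  have h6 := neg_abs_le (∑ m ∈ Finset.range m0, cf f m * x ^ m)
  linarith

end

end Pool.Agent.J4H6.LA
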